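import Pool.Agent.helper83.ORE.SpecDE

/-!
# ore:ESE — singular eigenvectors
-/

set_option autoImplicit false

namespace Pool.Agent.ORE

open Module Pool.Agent.GS

/-- ESE -/
theorem ESE (cwq : CWQ_stmt) : ESE_stmt := by
  intro F V _ _ _ _ _ Q h2 y hy Z hZ hdim hsing
  obtain ⟨e, heZ, he0, hQe⟩ := (cwq Q Q).1 Z hdim
  have hss : ∀ x : V, pb Q x x = 0 := pb_self2 h2 Q
  obtain ⟨f, hfZ, hQf, hef⟩ : ∃ f ∈ Z, Q f = 0 ∧ pb Q e f = 1 := by
    have h1 : ∃ w ∈ Z, pb Q e w ≠ 0 := by
      by_contra hcon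
      push Not at hcon
      exact he0 (hZ e heZ hcon)
    obtain ⟨w, hw, hew⟩ := h1
    obtain ⟨w', hw', hew'⟩ : ∃ w' ∈ Z, pb Q e w' = 1 := by
      refine ⟨(pb Q e w)⁻¹ • w, Z.smul_mem _ hw, ?_⟩
      rw [map_smul, smul_eq_mul, inv_mul_cancel₀ hew]
    refine ⟨w' + Q w' • e, Z.add_mem hw' (Z.smul_mem _ heZ), ?_, ?_⟩
    · rw [Q_add, Q_smul, hQe, map_smul, smul_eq_mul, pb_symm Q w' e, hew']
      linear_combination (Q w') * h2
    · rw [map_add, map_smul, smul_eq_mul, hss, hew']
      ring
  have hfe : pb Q f e = 1 := by rw [pb_symm, hef]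
  have hf0 : f ≠ 0 := by
    rintro rfl
    rw [map_zero] at hef
    exact zero_ne_one hef
  obtain ⟨l, hl⟩ := hsing e heZ hQe
  obtain ⟨l', hl'⟩ := hsing f hfZ hQf
  have hl0 : l ≠ 0 := by
    rintro rfl
    rw [zero_smul] at hl
    have h3 := OQ_pb hy e f
    rw [hl, map_zero, LinearMap.zero_apply, hef] at h3
    exact zero_ne_one h3
  have hl0' : l' ≠ 0 := by
    rintro rfl
    rw [zero_smul] at hl'
    have h3 := OQ_pb hy e f
    rw [hl', map_zero, hef] at h3
    exact zero_ne_one h3
  -- the vectors orthogonal to `e` and `f`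
  have key : ∀ g ∈ Z, pb Q g e = 0 → pb Q g f = 0 → y g = l • g ∧ Q g * (l - l') = 0 := by
    intro g hg hge hgf
    have hQx : Q (g + e + Q g • f) = 0 := by
      rw [Q_add, Q_add, Q_smul, hQe, hQf, hge, map_smul, smul_eq_mul, map_add,
        LinearMap.add_apply, hgf, hef]
      linear_combination (Q g) * h2
    obtain ⟨al, hal⟩ := hsing _ (Z.add_mem (Z.add_mem hg heZ) (Z.smul_mem (Q g) hfZ)) hQx
    rw [hy.1.1, hy.1.1, hy.1.2, hl, hl', smul_add, smul_add] at hal
    have hyg : y g = al • g + (al - l) • e + (Q g * (al - l')) • f := by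
      have h4 : y g = (al • g + al • e + al • Q g • f) - l • e - Q g • l' • f := by
        rw [← hal]
        abel
      rw [h4]
      module
    have h5 : pb Q (y g) f = 0 := by
      have h6 := OQ_pb hy g f
      rw [hl', map_smul, smul_eq_mul, hgf] at h6
      exact (mul_eq_zero.1 h6).resolve_left hl0'
    have h7 : pb Q (y g) e = 0 := by
      have h6 := OQ_pb hy g e
      rw [hl, map_smul, smul_eq_mul, hge] at h6
      exact (mul_eq_zero.1 h6).resolve_left hl0
    rw [hyg] at h5 h7
    simp only [map_add, LinearMap.add_apply, map_smul, LinearMap.smul_apply, smul_eq_mul, hgf,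
      hge, hef, hfe, hss, mul_zero, mul_one, add_zero, zero_add] at h5 h7
    have h8 : al = l := by linear_combination h5
    subst h8
    refine ⟨?_, h7⟩
    rw [hyg, h7]
    module
  -- the decomposition
  have hdec : ∀ z ∈ Z, ∃ g ∈ Z, pb Q g e = 0 ∧ pb Q g f = 0 ∧
      z = pb Q z f • e + pb Q z e • f + g := by
    intro z hz
    refine ⟨z - pb Q z f • e - pb Q z e • f, Z.sub_mem (Z.sub_mem hz (Z.smul_mem _ heZ))
      (Z.smul_mem _ hfZ), ?_, ?_, ?_⟩
    · simp only [map_sub, LinearMap.sub_apply, map_smul, LinearMap.smul_apply, smul_eq_mul, hss,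
        hfe]
      ring
    · simp only [map_sub, LinearMap.sub_apply, map_smul, LinearMap.smul_apply, smul_eq_mul, hss,
        hef]
      ring
    · module
  -- a nonsingular vector orthogonal to `e` and `f`
  have hex : ∃ g ∈ Z, pb Q g e = 0 ∧ pb Q g f = 0 ∧ Q g ≠ 0 := by
    by_contra hcon
    push Not at hcon
    have h3 : ∃ z ∈ Z, z ∉ Submodule.span F ({e, f} : Set V) := by
      by_contra h4
      push Not at h4
      have h5 : Z ≤ Submodule.span F ({e, f} : Set V) := h4
      have h6 := Submodule.finrank_mono h5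
      classical
      have h7 : finrank F (Submodule.span F (({e, f} : Finset V) : Set V)) ≤
          ({e, f} : Finset V).card := finrank_span_finset_le_card _
      have h8 : ({e, f} : Finset V).card ≤ 2 := Finset.card_le_two
      rw [Finset.coe_pair] at h7
      omega
    obtain ⟨z, hz, hz'⟩ := h3
    obtain ⟨g, hg, hge, hgf, hzg⟩ := hdec z hz
    have hg0 : g = 0 := by
      apply hZ g hg
      intro w hw
      obtain ⟨g', hg', hge', hgf', hwg⟩ := hdec w hw
      rw [hwg]
      simp only [map_add, map_smul, smul_eq_mul, hge, hgf, mul_zero, zero_add]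
      have h9 := Q_add Q g g'
      rw [hcon g hg hge hgf, hcon g' hg' hge' hgf', hcon (g + g') (Z.add_mem hg hg')
        (by rw [map_add, LinearMap.add_apply, hge, hge', add_zero])
        (by rw [map_add, LinearMap.add_apply, hgf, hgf', add_zero])] at h9
      linear_combination -h9
    apply hz'
    rw [hzg, hg0, add_zero]
    exact Submodule.add_mem _ (Submodule.smul_mem _ _ (Submodule.subset_span (by simp)))
      (Submodule.smul_mem _ _ (Submodule.subset_span (by simp)))
  obtain ⟨g, hg, hge, hgf, hQg⟩ := hex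
  have hll : l' = l := by
    have h3 := (mul_eq_zero.1 (key g hg hge hgf).2).resolve_left hQg
    linear_combination -h3
  refine ⟨l, fun z hz => ?_⟩
  obtain ⟨g', hg', hge', hgf', hzg⟩ := hdec z hz
  have h3 := (key g' hg' hge' hgf').1
  rw [hzg, hy.1.1, hy.1.1, hy.1.2, hy.1.2, hl, hl', hll, h3, ← hzg]
  nth_rw 3 [hzg]
  module

end Pool.Agent.ORE
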